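import Pool.Agent.Helper50_ABCT.Quo

/-!
# GQUO and HQUO (MP_a17fcb_ag)
-/

namespace ABCT.H50

open FlatCell ABCT

/-- choose a set of positions in two disjoint parts -/
theorem exists_parts (A B : Finset ℕ) (k m : ℕ) (hk : k ≤ A.card) (hm : m ≤ B.card)
    (hAB : Disjoint A B) :
    ∃ P : Finset ℕ, P ⊆ A ∪ B ∧ (P ∩ A).card = k ∧ P.card = k + m := by
  obtain ⟨P, hP, hPk⟩ := Finset.exists_subset_card_eq hk
  obtain ⟨Q, hQ, hQm⟩ := Finset.exists_subset_card_eq hm
  refine ⟨P ∪ Q, Finset.union_subset_union hP hQ, ?_, ?_⟩
  · have : (P ∪ Q) ∩ A = P := by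
      ext x
      rw [Finset.mem_inter, Finset.mem_union]
      constructor
      · rintro ⟨h | h, hA⟩
        · exact h
        · exact absurd (hQ h) (Finset.disjoint_left.mp hAB hA)
      · intro h; exact ⟨Or.inl h, hP h⟩
    rw [this, hPk]
  · rw [Finset.card_union_of_disjoint, hPk, hQm]
    exact Finset.disjoint_of_subset_left hP (Finset.disjoint_of_subset_right hQ hAB)

/-- GQUO -/
theorem gquo : GquoStmt := by
  intro K _ l r c u hl hr hn hc hu a b a' b' hab hb hab' hb'
  have hp : ∀ I ∈ l.toFinset.powersetCard r, Pg l r c u I ≠ 0 :=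
    fun I hI => Pg_ne r c u hc hu hI
  have key : ∀ i j k : ℕ, i ≠ j → i ≠ k → i + 1 < l.length → j + 1 < l.length →
      k + 1 < l.length → ds u i j / ds u i k ∈ Mon (l.toFinset.powersetCard r) (Pg l r c u) := by
    intro i j k hij hik hin hjn hkn
    by_cases hjk : j = k
    · subst hjk
      rw [div_self (ds_ne _ u hu hij hin hjn)]
      exact mon_one
    have hcard : r - 2 ≤ ((Finset.range l.length) \ {i, j, k, l.length - 1}).card := by
      have h1 : ({i, j, k, l.length - 1} : Finset ℕ).card ≤ 4 := Finset.card_le_four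
      have h2 := Finset.le_card_sdiff ({i, j, k, l.length - 1} : Finset ℕ) (Finset.range l.length)
      rw [Finset.card_range] at h2
      omega
    obtain ⟨P, hP, hPc⟩ := Finset.exists_subset_card_eq hcard
    have hm : ∀ x ∈ P, x < l.length ∧ x ≠ i ∧ x ≠ j ∧ x ≠ k ∧ x ≠ l.length - 1 := by
      intro x hx
      have := hP hx
      simp only [Finset.mem_sdiff, Finset.mem_range, Finset.mem_insert, Finset.mem_singleton,
        not_or] at this
      exact ⟨this.1, this.2⟩
    have hi : i ∉ P := fun h => (hm _ h).2.1 rfl
    have hj : j ∉ P := fun h => (hm _ h).2.2.1 rfl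
    have hk : k ∉ P := fun h => (hm _ h).2.2.2.1 rfl
    have hnn : l.length - 1 ∉ P := fun h => (hm _ h).2.2.2.2 rfl
    have hPr : P ⊆ Finset.range l.length := fun x hx => Finset.mem_range.mpr (hm x hx).1
    have mem : ∀ x y, x ≠ y → x ∉ P → y ∉ P → x < l.length → y < l.length →
        lab l (insert x (insert y P)) ∈ l.toFinset.powersetCard r := by
      intro x y hxy hx hy hxn hyn
      have hs : insert x (insert y P) ⊆ Finset.range l.length := by
        intro z hz
        rw [Finset.mem_insert, Finset.mem_insert] at hz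
        rw [Finset.mem_range]
        rcases hz with rfl | rfl | h
        · exact hxn
        · exact hyn
        · exact Finset.mem_range.mp (hPr h)
      rw [Finset.mem_powersetCard]
      refine ⟨lab_sub hs, ?_⟩
      rw [lab_card hl hs, Finset.card_insert_of_notMem (by simp [hxy, hx]),
        Finset.card_insert_of_notMem hy]
      omega
    exact tri_mon hl r c u hc hu _ (Finset.Subset.refl _) P i j k hPr (by omega) hi hj hk hnn
      hij hik hin hjn hkn (mem i j hij hi hj (by omega) (by omega))
      (mem i k hik hi hk (by omega) (by omega))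
      (mem k _ (by omega) hk hnn (by omega) (by omega))
      (mem j _ (by omega) hj hnn (by omega) (by omega))
  rw [← ds_lt u hab, ← ds_lt u hab']
  -- chain
  by_cases h : b' = a
  · subst h
    rw [ds_comm u a' b']
    exact key b' b a' (by omega) (by omega) (by omega) hb (by omega)
  · have e : ds u a b / ds u a' b' = (ds u a b / ds u a b') * (ds u b' a / ds u b' a') := by
      rw [ds_comm u b' a, ds_comm u b' a']
      have h1 := ds_ne _ u hu (Ne.symm h) (by omega) hb'
      field_simp
    rw [e]
    exact mon_mul hp (key a b b' (by omega) (by omega) (by omega) hb hb')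
      (key b' a a' (by omega) (by omega) hb' (by omega) (by omega))

end ABCT.H50
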