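import Pool.Agent.Helper50_ABCT.Gquo

/-!
# HQUO (MP_a17fcb_ag)
-/

namespace ABCT.H50

open FlatCell ABCT

/-- the quotient `D_ij / D_ik` as a monomial in the bases of `(A, d)`; `m₁, m₂` count the elements
of `A` in the sets of positions. -/
theorem tri_mad {K : Type*} [Field K] {l : List ℕ} (hl : l.Nodup) (r d a₀ a₁ : ℕ) (c u : ℕ → K)
    (hc : ∀ i, c i ≠ 0) (hu : ∀ a b, a < b → b + 1 < l.length → ∑ h ∈ Finset.Ico a b, u h ≠ 0)
    (ha : a₁ + 1 ≤ l.length) (hr2 : 2 ≤ r) (k : ℕ) (i j e : ℕ)
    (hij : i ≠ j) (hie : i ≠ e) (hje : j ≠ e)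
    (hin : i + 1 < l.length) (hjn : j + 1 < l.length) (hen : e + 1 < l.length)
    (hk : k ≤ ((Finset.Ico a₀ a₁) \ {i, j, e}).card)
    (hm : r - 2 - k ≤ ((Finset.range l.length \ Finset.Ico a₀ a₁) \ {i, j, e, l.length - 1}).card)
    (hkr : k ≤ r - 2)
    (h1 : k + ((if i ∈ Finset.Ico a₀ a₁ then 1 else 0) +
      (if j ∈ Finset.Ico a₀ a₁ then 1 else 0)) = d ∨
      k + ((if i ∈ Finset.Ico a₀ a₁ then 1 else 0) +
      (if j ∈ Finset.Ico a₀ a₁ then 1 else 0)) = d + 1)
    (h2 : k + ((if i ∈ Finset.Ico a₀ a₁ then 1 else 0) +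
      (if e ∈ Finset.Ico a₀ a₁ then 1 else 0)) = d ∨
      k + ((if i ∈ Finset.Ico a₀ a₁ then 1 else 0) +
      (if e ∈ Finset.Ico a₀ a₁ then 1 else 0)) = d + 1)
    (h3 : k + (if e ∈ Finset.Ico a₀ a₁ then 1 else 0) = d ∨
      k + (if e ∈ Finset.Ico a₀ a₁ then 1 else 0) = d + 1)
    (h4 : k + (if j ∈ Finset.Ico a₀ a₁ then 1 else 0) = d ∨
      k + (if j ∈ Finset.Ico a₀ a₁ then 1 else 0) = d + 1) :
    ds u i j / ds u i e ∈
      Mon (MAd l ((l.drop a₀).take (a₁ - a₀)).toFinset r d) (Pg l r c u) := by
  obtain ⟨P, hP, hPA, hPc⟩ := exists_parts _ _ k (r - 2 - k) hk hm (by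
    rw [Finset.disjoint_left]
    intro x hx hx'
    rw [Finset.mem_sdiff] at hx hx'
    rw [Finset.mem_sdiff] at hx'
    exact hx'.1.2 hx.1)
  have hm : ∀ x ∈ P, x < l.length ∧ x ≠ i ∧ x ≠ j ∧ x ≠ e ∧ x ≠ l.length - 1 := by
    intro x hx
    have := hP hx
    simp only [Finset.mem_union, Finset.mem_sdiff, Finset.mem_range, Finset.mem_insert,
      Finset.mem_singleton, not_or, Finset.mem_Ico] at this
    omega
  have hi : i ∉ P := fun h => (hm _ h).2.1 rfl
  have hj : j ∉ P := fun h => (hm _ h).2.2.1 rfl
  have he : e ∉ P := fun h => (hm _ h).2.2.2.1 rfl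
  have hnn : l.length - 1 ∉ P := fun h => (hm _ h).2.2.2.2 rfl
  have hPr : P ⊆ Finset.range l.length := fun x hx => Finset.mem_range.mpr (hm x hx).1
  have hAr : Finset.Ico a₀ a₁ ⊆ Finset.range l.length := by
    intro x hx
    rw [Finset.mem_Ico] at hx
    rw [Finset.mem_range]; omega
  have hPA' : (P ∩ Finset.Ico a₀ a₁).card = k := by
    rw [← hPA]
    congr 1
    ext x
    simp only [Finset.mem_inter, Finset.mem_sdiff, Finset.mem_insert, Finset.mem_singleton, not_or]
    constructor
    · rintro ⟨hx, hx'⟩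
      exact ⟨hx, hx', (hm x hx).2.1, (hm x hx).2.2.1, (hm x hx).2.2.2.1⟩
    · rintro ⟨hx, hx', _⟩
      exact ⟨hx, hx'⟩
  have hroot : l.length - 1 ∉ Finset.Ico a₀ a₁ := by
    rw [Finset.mem_Ico]; omega
  have mem : ∀ x y, x ≠ y → x ∉ P → y ∉ P → x < l.length → y < l.length →
      (k + ((if x ∈ Finset.Ico a₀ a₁ then 1 else 0) +
        (if y ∈ Finset.Ico a₀ a₁ then 1 else 0)) = d ∨
      k + ((if x ∈ Finset.Ico a₀ a₁ then 1 else 0) +
        (if y ∈ Finset.Ico a₀ a₁ then 1 else 0)) = d + 1) →
      lab l (insert x (insert y P)) ∈ MAd l ((l.drop a₀).take (a₁ - a₀)).toFinset r d := by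
    intro x y hxy hx hy hxn hyn hcount
    have hs : insert x (insert y P) ⊆ Finset.range l.length := by
      intro z hz
      rw [Finset.mem_insert, Finset.mem_insert] at hz
      rw [Finset.mem_range]
      rcases hz with rfl | rfl | h
      · exact hxn
      · exact hyn
      · exact Finset.mem_range.mp (hPr h)
    unfold MAd
    rw [Finset.mem_filter, Finset.mem_powersetCard]
    refine ⟨⟨lab_sub hs, ?_⟩, ?_⟩
    · rw [lab_card hl hs, Finset.card_insert_of_notMem (by simp [hxy, hx]),
        Finset.card_insert_of_notMem hy]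
      omega
    · rw [← lab_Ico l a₀ a₁ (by omega), lab_inter hl hs hAr,
        lab_card hl (fun z hz => hs (Finset.mem_inter.mp hz).1)]
      have hcard : (insert x (insert y P) ∩ Finset.Ico a₀ a₁).card =
          k + ((if x ∈ Finset.Ico a₀ a₁ then 1 else 0) +
            (if y ∈ Finset.Ico a₀ a₁ then 1 else 0)) := by
        by_cases hxA : x ∈ Finset.Ico a₀ a₁
        · by_cases hyA : y ∈ Finset.Ico a₀ a₁
          · rw [Finset.insert_inter_of_mem hxA, Finset.insert_inter_of_mem hyA,
              Finset.card_insert_of_notMem, Finset.card_insert_of_notMem, hPA',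
              if_pos hxA, if_pos hyA]
            · simp [hy]
            · simp [hx, hxy]
          · rw [Finset.insert_inter_of_mem hxA, Finset.insert_inter_of_notMem hyA,
              Finset.card_insert_of_notMem, hPA', if_pos hxA, if_neg hyA]
            simp [hx]
        · by_cases hyA : y ∈ Finset.Ico a₀ a₁
          · rw [Finset.insert_inter_of_notMem hxA, Finset.insert_inter_of_mem hyA,
              Finset.card_insert_of_notMem, hPA', if_neg hxA, if_pos hyA]
            · simp [hy]
          · rw [Finset.insert_inter_of_notMem hxA, Finset.insert_inter_of_notMem hyA,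
              hPA', if_neg hxA, if_neg hyA]
            simp
      rw [hcard]
      exact hcount
  refine tri_mon hl r c u hc hu _ (Finset.filter_subset _ _) P i j e hPr (by omega) hi hj he hnn
    hij hie hin hjn hen (mem i j hij hi hj (by omega) (by omega) h1)
    (mem i e hie hi he (by omega) (by omega) h2)
    (mem e _ (by omega) he hnn (by omega) (by omega) ?_)
    (mem j _ (by omega) hj hnn (by omega) (by omega) ?_)
  · rw [if_neg hroot]; exact h3
  · rw [if_neg hroot]; exact h4

/-- HQUO -/
theorem hquo : HquoStmt := by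
  intro K _ l r d a₀ a₁ c u hl hr hn h01 h1n hAB hdA hdr hrA hA2 hB2 hc hu
  set n := l.length with hndef
  have hp : ∀ I ∈ MAd l ((l.drop a₀).take (a₁ - a₀)).toFinset r d, Pg l r c u I ≠ 0 :=
    fun I hI => Pg_ne r c u hc hu ((Finset.filter_subset _ _) hI)
  -- sizes
  have cA : ∀ i j e : ℕ, ∀ t : ℕ,
      (Finset.Ico a₀ a₁ ∩ {i, j, e}).card ≤ t →
      a₁ - a₀ - t ≤ ((Finset.Ico a₀ a₁) \ {i, j, e}).card := by
    intro i j e t ht
    have h := Finset.card_sdiff_add_card_inter (Finset.Ico a₀ a₁) ({i, j, e} : Finset ℕ)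
    rw [Nat.card_Ico] at h
    omega
  have cB : ∀ i j e : ℕ, ∀ t : ℕ,
      ((Finset.range n \ Finset.Ico a₀ a₁) ∩ {i, j, e, n - 1}).card ≤ t →
      n - (a₁ - a₀) - t ≤ ((Finset.range n \ Finset.Ico a₀ a₁) \ {i, j, e, n - 1}).card := by
    intro i j e t ht
    have h := Finset.card_sdiff_add_card_inter (Finset.range n \ Finset.Ico a₀ a₁)
      ({i, j, e, n - 1} : Finset ℕ)
    have h' : (Finset.range n \ Finset.Ico a₀ a₁).card = n - (a₁ - a₀) := by
      rw [Finset.card_sdiff_of_subset, Finset.card_range, Nat.card_Ico]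
      intro x hx
      rw [Finset.mem_Ico] at hx
      rw [Finset.mem_range]; omega
    rw [h'] at h
    omega
  have three : ∀ i j e : ℕ, ({i, j, e} : Finset ℕ).card ≤ 3 := fun i j e => Finset.card_le_three
  constructor
  · -- inside A
    have key : ∀ i j e : ℕ, i ∈ Finset.Ico a₀ a₁ → j ∈ Finset.Ico a₀ a₁ →
        e ∈ Finset.Ico a₀ a₁ → i ≠ j → i ≠ e → ds u i j / ds u i e ∈
        Mon (MAd l ((l.drop a₀).take (a₁ - a₀)).toFinset r d) (Pg l r c u) := by
      intro i j e hi hj he hij hie
      have hi' := Finset.mem_Ico.mp hi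
      have hj' := Finset.mem_Ico.mp hj
      have he' := Finset.mem_Ico.mp he
      by_cases hje : j = e
      · subst hje
        rw [div_self (ds_ne _ u hu hij (by omega) (by omega))]
        exact mon_one
      have hA3 : 3 ≤ a₁ - a₀ := by omega
      have hd : 1 ≤ d ∧ d + 2 ≤ a₁ - a₀ := by omega
      refine tri_mad hl r d a₀ a₁ c u hc hu h1n hr (d - 1) i j e hij hie hje (by omega) (by omega)
        (by omega) ?_ ?_ (by omega) ?_ ?_ ?_ ?_
      · refine le_trans ?_ (cA i j e 3 (le_trans (Finset.card_le_card Finset.inter_subset_right)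
          (three _ _ _)))
        omega
      · refine le_trans ?_ (cB i j e 1 ?_)
        · omega
        · have : (Finset.range n \ Finset.Ico a₀ a₁) ∩ {i, j, e, n - 1} ⊆ {n - 1} := by
            intro x hx
            simp only [Finset.mem_inter, Finset.mem_sdiff, Finset.mem_insert,
              Finset.mem_singleton] at hx ⊢
            obtain ⟨⟨_, h1⟩, rfl | rfl | rfl | h⟩ := hx
            · exact absurd hi h1
            · exact absurd hj h1
            · exact absurd he h1
            · exact h
          exact le_trans (Finset.card_le_card this) (by simp)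
      · rw [if_pos hi, if_pos hj]; omega
      · rw [if_pos hi, if_pos he]; omega
      · rw [if_pos he]; omega
      · rw [if_pos hj]; omega
    intro a b a' b' h1 h2 h3 h4 h5 h6
    rw [← ds_lt u h2, ← ds_lt u h5]
    by_cases h : b' = a
    · subst h
      rw [ds_comm u a' b']
      exact key b' b a' (Finset.mem_Ico.mpr ⟨by omega, by omega⟩)
        (Finset.mem_Ico.mpr ⟨by omega, by omega⟩) (Finset.mem_Ico.mpr ⟨by omega, by omega⟩)
        (by omega) (by omega)
    · have e : ds u a b / ds u a' b' = (ds u a b / ds u a b') * (ds u b' a / ds u b' a') := by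
        rw [ds_comm u b' a, ds_comm u b' a']
        have h1 := ds_ne _ u hu (Ne.symm h) (by omega) (by omega)
        field_simp
      rw [e]
      exact mon_mul hp (key a b b' (Finset.mem_Ico.mpr ⟨by omega, by omega⟩)
        (Finset.mem_Ico.mpr ⟨by omega, by omega⟩) (Finset.mem_Ico.mpr ⟨by omega, by omega⟩)
        (by omega) (by omega))
        (key b' a a' (Finset.mem_Ico.mpr ⟨by omega, by omega⟩)
        (Finset.mem_Ico.mpr ⟨by omega, by omega⟩) (Finset.mem_Ico.mpr ⟨by omega, by omega⟩)
        (by omega) (by omega))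
  · -- not inside A
    -- (iv)
    have iv : ∀ x e e' : ℕ, x ∉ Finset.Ico a₀ a₁ → x + 1 < n → e ∈ Finset.Ico a₀ a₁ →
        e' ∈ Finset.Ico a₀ a₁ → ds u x e / ds u x e' ∈
        Mon (MAd l ((l.drop a₀).take (a₁ - a₀)).toFinset r d) (Pg l r c u) := by
      intro x e e' hx hxn he he'
      have hx2 : x < a₀ ∨ a₁ ≤ x := by rw [Finset.mem_Ico] at hx; omega
      have he2 := Finset.mem_Ico.mp he
      have he2' := Finset.mem_Ico.mp he'
      have hxe : x ≠ e := by omega
      have hxe' : x ≠ e' := by omega
      by_cases hee : e = e'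
      · subst hee
        rw [div_self (ds_ne _ u hu hxe hxn (by omega))]
        exact mon_one
      have gen : ∀ k : ℕ, (k = d ∨ k + 1 = d) → k + 2 ≤ a₁ - a₀ → k + 2 ≤ r →
          r + (a₁ - a₀) ≤ k + n → ds u x e / ds u x e' ∈
          Mon (MAd l ((l.drop a₀).take (a₁ - a₀)).toFinset r d) (Pg l r c u) := by
        intro k hkd hkA hkr hkn
        refine tri_mad hl r d a₀ a₁ c u hc hu h1n hr k x e e' hxe hxe' hee (by omega) (by omega)
          (by omega) ?_ ?_ (by omega) ?_ ?_ ?_ ?_
        · refine le_trans ?_ (cA x e e' 2 ?_)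
          · omega
          · have : Finset.Ico a₀ a₁ ∩ {x, e, e'} ⊆ {e, e'} := by
              intro y hy
              simp only [Finset.mem_inter, Finset.mem_insert, Finset.mem_singleton] at hy ⊢
              obtain ⟨h1, rfl | h | h⟩ := hy
              · exact absurd h1 hx
              · left; exact h
              · right; exact h
            exact le_trans (Finset.card_le_card this) Finset.card_le_two
        · refine le_trans ?_ (cB x e e' 2 ?_)
          · omega
          · have : (Finset.range n \ Finset.Ico a₀ a₁) ∩ {x, e, e', n - 1} ⊆ {x, n - 1} := by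
              intro y hy
              simp only [Finset.mem_inter, Finset.mem_sdiff, Finset.mem_insert,
                Finset.mem_singleton] at hy ⊢
              obtain ⟨⟨_, h1⟩, h | rfl | rfl | h⟩ := hy
              · left; exact h
              · exact absurd he h1
              · exact absurd he' h1
              · right; exact h
            exact le_trans (Finset.card_le_card this) Finset.card_le_two
        · rw [if_neg hx, if_pos he]; omega
        · rw [if_neg hx, if_pos he']; omega
        · rw [if_pos he']; omega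
        · rw [if_pos he]; omega
      by_cases h : d + 2 ≤ a₁ - a₀ ∧ d + 2 ≤ r
      · exact gen d (Or.inl rfl) h.1 h.2 hrA
      · exact gen (d - 1) (by omega) (by omega) (by omega) (by omega)
    -- (v)
    have v : ∀ e x y : ℕ, e ∈ Finset.Ico a₀ a₁ → x ∉ Finset.Ico a₀ a₁ → x + 1 < n →
        y ∉ Finset.Ico a₀ a₁ → y + 1 < n → ds u e x / ds u e y ∈
        Mon (MAd l ((l.drop a₀).take (a₁ - a₀)).toFinset r d) (Pg l r c u) := by
      intro e x y he hx hxn hy hyn
      have hx2 : x < a₀ ∨ a₁ ≤ x := by rw [Finset.mem_Ico] at hx; omega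
      have hy2 : y < a₀ ∨ a₁ ≤ y := by rw [Finset.mem_Ico] at hy; omega
      have he2 := Finset.mem_Ico.mp he
      by_cases hxy : x = y
      · subst hxy
        rw [div_self (ds_ne _ u hu (by omega) (by omega) hxn)]
        exact mon_one
      refine tri_mad hl r d a₀ a₁ c u hc hu h1n hr d e x y (by omega) (by omega) hxy (by omega)
          (by omega) (by omega) ?_ ?_ (by omega) ?_ ?_ ?_ ?_
      · refine le_trans ?_ (cA e x y 1 ?_)
        · omega
        · have : Finset.Ico a₀ a₁ ∩ {e, x, y} ⊆ {e} := by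
            intro z hz
            simp only [Finset.mem_inter, Finset.mem_insert, Finset.mem_singleton] at hz ⊢
            obtain ⟨h1, h | rfl | rfl⟩ := hz
            · exact h
            · exact absurd h1 hx
            · exact absurd h1 hy
          exact le_trans (Finset.card_le_card this) (by simp)
      · refine le_trans ?_ (cB e x y 3 ?_)
        · omega
        · have : (Finset.range n \ Finset.Ico a₀ a₁) ∩ {e, x, y, n - 1} ⊆ {x, y, n - 1} := by
            intro z hz
            simp only [Finset.mem_inter, Finset.mem_sdiff, Finset.mem_insert,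
              Finset.mem_singleton] at hz ⊢
            obtain ⟨⟨_, h1⟩, rfl | h | h | h⟩ := hz
            · exact absurd he h1
            · left; exact h
            · right; left; exact h
            · right; right; exact h
          exact le_trans (Finset.card_le_card this) (three _ _ _)
      · rw [if_neg hx, if_pos he]; omega
      · rw [if_neg hy, if_pos he]; omega
      · rw [if_neg hy]; omega
      · rw [if_neg hx]; omega
    -- (iii)
    have iii : ∀ x y e : ℕ, x ∉ Finset.Ico a₀ a₁ → x + 1 < n → y ∉ Finset.Ico a₀ a₁ → y + 1 < n →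
        e ∈ Finset.Ico a₀ a₁ → x ≠ y → ds u x y / ds u x e ∈
        Mon (MAd l ((l.drop a₀).take (a₁ - a₀)).toFinset r d) (Pg l r c u) := by
      intro x y e hx hxn hy hyn he hxy
      have hx2 : x < a₀ ∨ a₁ ≤ x := by rw [Finset.mem_Ico] at hx; omega
      have hy2 : y < a₀ ∨ a₁ ≤ y := by rw [Finset.mem_Ico] at hy; omega
      have he2 := Finset.mem_Ico.mp he
      refine tri_mad hl r d a₀ a₁ c u hc hu h1n hr d x y e hxy (by omega) (by omega) (by omega)
          (by omega) (by omega) ?_ ?_ (by omega) ?_ ?_ ?_ ?_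
      · refine le_trans ?_ (cA x y e 1 ?_)
        · omega
        · have : Finset.Ico a₀ a₁ ∩ {x, y, e} ⊆ {e} := by
            intro z hz
            simp only [Finset.mem_inter, Finset.mem_insert, Finset.mem_singleton] at hz ⊢
            obtain ⟨h1, rfl | rfl | h⟩ := hz
            · exact absurd h1 hx
            · exact absurd h1 hy
            · exact h
          exact le_trans (Finset.card_le_card this) (by simp)
      · refine le_trans ?_ (cB x y e 3 ?_)
        · omega
        · have : (Finset.range n \ Finset.Ico a₀ a₁) ∩ {x, y, e, n - 1} ⊆ {x, y, n - 1} := by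
            intro z hz
            simp only [Finset.mem_inter, Finset.mem_sdiff, Finset.mem_insert,
              Finset.mem_singleton] at hz ⊢
            obtain ⟨⟨_, h1⟩, h | h | rfl | h⟩ := hz
            · left; exact h
            · right; left; exact h
            · exact absurd he h1
            · right; right; exact h
          exact le_trans (Finset.card_le_card this) (three _ _ _)
      · rw [if_neg hx, if_neg hy]; omega
      · rw [if_neg hx, if_pos he]; omega
      · rw [if_pos he]; omega
      · rw [if_neg hy]; omega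
    -- reference: e₀ = a₀ in A; the pair (x, e₀) for any x outside
    have he0 : a₀ ∈ Finset.Ico a₀ a₁ := Finset.mem_Ico.mpr ⟨le_refl _, by omega⟩
    -- every difference not inside A is equivalent to some `ds x a₀`
    have toref : ∀ a b : ℕ, a < b → b + 1 < n → (a < a₀ ∨ a₁ ≤ b) →
        ∃ x, x ∉ Finset.Ico a₀ a₁ ∧ x + 1 < n ∧ ds u a b / ds u a₀ x ∈
        Mon (MAd l ((l.drop a₀).take (a₁ - a₀)).toFinset r d) (Pg l r c u) := by
      intro a b hab hb h
      by_cases haA : a ∈ Finset.Ico a₀ a₁
      · have hbA : b ∉ Finset.Ico a₀ a₁ := by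
          have := Finset.mem_Ico.mp haA
          rw [Finset.mem_Ico]; omega
        refine ⟨b, hbA, hb, ?_⟩
        rw [ds_comm u a b, ds_comm u a₀ b]
        exact iv b a a₀ hbA hb haA he0
      · by_cases hbA : b ∈ Finset.Ico a₀ a₁
        · refine ⟨a, haA, by omega, ?_⟩
          rw [ds_comm u a₀ a]
          exact iv a b a₀ haA (by omega) hbA he0
        · refine ⟨a, haA, by omega, ?_⟩
          rw [ds_comm u a₀ a]
          exact iii a b a₀ haA (by omega) hbA hb he0 (by omega)
    intro a b a' b' hab hb hab' hb' h h'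
    obtain ⟨x, hx, hxn, h1⟩ := toref a b hab hb h
    obtain ⟨y, hy, hyn, h2⟩ := toref a' b' hab' hb' h'
    have h3 := v a₀ x y he0 hx hxn hy hyn
    rw [← ds_lt u hab, ← ds_lt u hab']
    have hx2 : x < a₀ ∨ a₁ ≤ x := by rw [Finset.mem_Ico] at hx; omega
    have hy2 : y < a₀ ∨ a₁ ≤ y := by rw [Finset.mem_Ico] at hy; omega
    have n1 : ds u a₀ x ≠ 0 := ds_ne _ u hu (by omega) (by omega) hxn
    have n2 : ds u a₀ y ≠ 0 := ds_ne _ u hu (by omega) (by omega) hyn
    have n3 : ds u a' b' ≠ 0 := ds_ne _ u hu (by omega) (by omega) hb'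
    have e : ds u a b / ds u a' b' =
        (ds u a b / ds u a₀ x) * (ds u a₀ x / ds u a₀ y) / (ds u a' b' / ds u a₀ y) := by
      field_simp
    rw [e]
    exact mon_div hp (mon_mul hp h1 h3) h2

end ABCT.H50
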