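import Pool.Agent.Helper32_ABCT.Stmts2

/-!
# GQUO and HQUO (MP_a17fcb_ag): quotients of differences as Laurent monomials
-/

namespace ABCT.H50

open FlatCell ABCT

section

variable {K : Type*} [Field K]

/-- symmetric difference of two positions -/
def ds (u : ℕ → K) (a b : ℕ) : K := ∑ h ∈ Finset.Ico (min a b) (max a b), u h

theorem ds_comm (u : ℕ → K) (a b : ℕ) : ds u a b = ds u b a := by
  unfold ds; rw [min_comm, max_comm]

theorem ds_lt (u : ℕ → K) {a b : ℕ} (h : a < b) : ds u a b = ∑ h ∈ Finset.Ico a b, u h := by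
  unfold ds; rw [min_eq_left h.le, max_eq_right h.le]

/-- pairs of nonroot positions -/
def PP (n : ℕ) (P : Finset ℕ) : Finset (ℕ × ℕ) :=
  (P ×ˢ P).filter fun p => p.1 < p.2 ∧ p.2 + 1 < n

/-- value on a set of positions -/
def Wp (n : ℕ) (c u : ℕ → K) (P : Finset ℕ) : K :=
  (∏ a ∈ P, c a) * ∏ p ∈ PP n P, ∑ h ∈ Finset.Ico p.1 p.2, u h

/-- product of the differences with a position -/
def Fp (n : ℕ) (u : ℕ → K) (P : Finset ℕ) (i : ℕ) : K :=
  ∏ x ∈ P.filter (fun x => x + 1 < n), ds u x i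

theorem Fp_insert (n : ℕ) (u : ℕ → K) (P : Finset ℕ) (i j : ℕ) (hi : i ∉ P) (hn : i + 1 < n) :
    Fp n u (insert i P) j = ds u i j * Fp n u P j := by
  unfold Fp
  rw [Finset.filter_insert, if_pos hn, Finset.prod_insert]
  simp [hi]

theorem Fp_insert_root (n : ℕ) (u : ℕ → K) (P : Finset ℕ) (j : ℕ) :
    Fp n u (insert (n - 1) P) j = Fp n u P j := by
  unfold Fp
  rw [Finset.filter_insert, if_neg (by omega)]

theorem Wp_insert (n : ℕ) (c u : ℕ → K) (P : Finset ℕ) (i : ℕ) (hi : i ∉ P) (hn : i + 1 < n) :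
    Wp n c u (insert i P) = c i * Wp n c u P * Fp n u P i := by
  have h1 : PP n (insert i P) = PP n P ∪
      (P.filter (fun x => x + 1 < n)).image fun x => (min x i, max x i) := by
    ext ⟨a, b⟩
    simp only [PP, Finset.mem_filter, Finset.mem_product, Finset.mem_insert, Finset.mem_union,
      Finset.mem_image, Prod.mk.injEq]
    constructor
    · rintro ⟨⟨rfl | ha, rfl | hb⟩, hlt, hbn⟩
      · omega
      · right; exact ⟨b, ⟨hb, hbn⟩, by omega, by omega⟩
      · right; exact ⟨a, ⟨ha, by omega⟩, by omega, by omega⟩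
      · left; exact ⟨⟨ha, hb⟩, hlt, hbn⟩
    · rintro (⟨⟨ha, hb⟩, hlt, hbn⟩ | ⟨x, ⟨hx, hxn⟩, h1, h2⟩)
      · exact ⟨⟨Or.inr ha, Or.inr hb⟩, hlt, hbn⟩
      · have hxi : x ≠ i := fun h => hi (h ▸ hx)
        rcases Nat.lt_or_gt_of_ne hxi with h | h
        · have ha : a = x := by omega
          have hb : b = i := by omega
          subst ha; subst hb
          exact ⟨⟨Or.inr hx, Or.inl rfl⟩, h, hn⟩
        · have ha : a = i := by omega
          have hb : b = x := by omega
          subst ha; subst hb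
          exact ⟨⟨Or.inl rfl, Or.inr hx⟩, h, hxn⟩
  have h2 : Disjoint (PP n P)
      ((P.filter (fun x => x + 1 < n)).image fun x => (min x i, max x i)) := by
    rw [Finset.disjoint_left]
    rintro ⟨a, b⟩ h h'
    simp only [PP, Finset.mem_filter, Finset.mem_product, Finset.mem_image, Prod.mk.injEq] at h h'
    obtain ⟨⟨ha, hb⟩, hlt, hbn⟩ := h
    obtain ⟨x, ⟨hx, hxn⟩, h1, h2⟩ := h'
    have : a = i ∨ b = i := by omega
    rcases this with rfl | rfl
    · exact hi ha
    · exact hi hb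
  unfold Wp
  rw [Finset.prod_insert hi, h1, Finset.prod_union h2, Finset.prod_image]
  · unfold Fp ds
    ring
  · intro x hx y hy hxy
    simp only [Prod.mk.injEq] at hxy
    omega

theorem Wp_insert_root (n : ℕ) (c u : ℕ → K) (P : Finset ℕ) (hP : n - 1 ∉ P) (h0 : 0 < n) :
    Wp n c u (insert (n - 1) P) = c (n - 1) * Wp n c u P := by
  have h1 : PP n (insert (n - 1) P) = PP n P := by
    ext ⟨a, b⟩
    simp only [PP, Finset.mem_filter, Finset.mem_product, Finset.mem_insert]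
    constructor
    · rintro ⟨⟨ha, hb⟩, hlt, hbn⟩
      refine ⟨⟨?_, ?_⟩, hlt, hbn⟩
      · rcases ha with h | h
        · omega
        · exact h
      · rcases hb with h | h
        · omega
        · exact h
    · rintro ⟨⟨ha, hb⟩, hlt, hbn⟩
      exact ⟨⟨Or.inr ha, Or.inr hb⟩, hlt, hbn⟩
  unfold Wp
  rw [Finset.prod_insert hP, h1]
  ring

/-- two nonroot positions -/
theorem Wp_two (n : ℕ) (c u : ℕ → K) (P : Finset ℕ) (i j : ℕ) (hi : i ∉ P) (hj : j ∉ P)
    (hij : i ≠ j) (hin : i + 1 < n) (hjn : j + 1 < n) :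
    Wp n c u (insert i (insert j P)) =
      c i * c j * Wp n c u P * Fp n u P i * Fp n u P j * ds u i j := by
  rw [Wp_insert n c u _ i (by simp [hij, hi]) hin, Wp_insert n c u P j hj hjn,
    Fp_insert n u P j i hj hjn, ds_comm u j i]
  ring

/-- one nonroot position and the root -/
theorem Wp_root (n : ℕ) (c u : ℕ → K) (P : Finset ℕ) (i : ℕ) (hi : i ∉ P) (hr : n - 1 ∉ P)
    (hin : i + 1 < n) :
    Wp n c u (insert i (insert (n - 1) P)) =
      c i * c (n - 1) * Wp n c u P * Fp n u P i := by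
  rw [Wp_insert n c u _ i (by simp [hi]; omega) hin, Wp_insert_root n c u P hr (by omega),
    Fp_insert_root]
  ring

theorem Wp_ne (n : ℕ) (c u : ℕ → K) (hc : ∀ i, c i ≠ 0)
    (hu : ∀ a b, a < b → b + 1 < n → ∑ h ∈ Finset.Ico a b, u h ≠ 0) (P : Finset ℕ) :
    Wp n c u P ≠ 0 := by
  unfold Wp
  refine mul_ne_zero (Finset.prod_ne_zero_iff.mpr fun i _ => hc i)
    (Finset.prod_ne_zero_iff.mpr fun p hp => ?_)
  simp only [PP, Finset.mem_filter] at hp
  exact hu _ _ hp.2.1 hp.2.2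

theorem ds_ne (n : ℕ) (u : ℕ → K)
    (hu : ∀ a b, a < b → b + 1 < n → ∑ h ∈ Finset.Ico a b, u h ≠ 0) {a b : ℕ} (hab : a ≠ b)
    (ha : a + 1 < n) (hb : b + 1 < n) : ds u a b ≠ 0 := by
  rcases Nat.lt_or_gt_of_ne hab with h | h
  · rw [ds_lt u h]; exact hu _ _ h hb
  · rw [ds_comm, ds_lt u h]; exact hu _ _ h ha

theorem Fp_ne (n : ℕ) (u : ℕ → K)
    (hu : ∀ a b, a < b → b + 1 < n → ∑ h ∈ Finset.Ico a b, u h ≠ 0) (P : Finset ℕ) (i : ℕ)
    (hi : i ∉ P) (hin : i + 1 < n) : Fp n u P i ≠ 0 := by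
  unfold Fp
  refine Finset.prod_ne_zero_iff.mpr fun x hx => ?_
  rw [Finset.mem_filter] at hx
  exact ds_ne n u hu (fun h => hi (h ▸ hx.1)) hx.2 hin

/-- the basic quotient -/
theorem tri_eq (n : ℕ) (c u : ℕ → K) (hc : ∀ i, c i ≠ 0)
    (hu : ∀ a b, a < b → b + 1 < n → ∑ h ∈ Finset.Ico a b, u h ≠ 0) (P : Finset ℕ) (i j k : ℕ)
    (hi : i ∉ P) (hj : j ∉ P) (hk : k ∉ P) (hr : n - 1 ∉ P) (hij : i ≠ j) (hik : i ≠ k)
    (hin : i + 1 < n) (hjn : j + 1 < n) (hkn : k + 1 < n) :
    ds u i j / ds u i k =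
      (Wp n c u (insert i (insert j P)) / Wp n c u (insert i (insert k P))) *
      (Wp n c u (insert k (insert (n - 1) P)) / Wp n c u (insert j (insert (n - 1) P))) := by
  rw [Wp_two n c u P i j hi hj hij hin hjn, Wp_two n c u P i k hi hk hik hin hkn,
    Wp_root n c u P k hk hr hkn, Wp_root n c u P j hj hr hjn]
  have h1 := Wp_ne n c u hc hu P
  have h2 := Fp_ne n u hu P i hi hin
  have h3 := Fp_ne n u hu P j hj hjn
  have h4 := Fp_ne n u hu P k hk hkn
  have h5 := ds_ne n u hu hik hin hkn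
  have h6 := hc i
  have h7 := hc j
  have h8 := hc k
  have h9 := hc (n - 1)
  field_simp

end

/-! ### labels of a set of positions -/

/-- labels -/
def lab (l : List ℕ) (P : Finset ℕ) : Finset ℕ := P.image fun a => l.getD a 0

theorem getD_inj {l : List ℕ} (hl : l.Nodup) {a b : ℕ} (ha : a < l.length) (hb : b < l.length)
    (h : l.getD a 0 = l.getD b 0) : a = b := by
  rw [List.getD_eq_getElem _ _ ha, List.getD_eq_getElem _ _ hb] at h
  exact (List.Nodup.getElem_inj_iff hl).mp h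

theorem mem_lab {l : List ℕ} (hl : l.Nodup) {P : Finset ℕ} (hP : P ⊆ Finset.range l.length)
    {a : ℕ} (ha : a < l.length) : l.getD a 0 ∈ lab l P ↔ a ∈ P := by
  unfold lab
  rw [Finset.mem_image]
  constructor
  · rintro ⟨b, hb, h⟩
    rw [← getD_inj hl (Finset.mem_range.mp (hP hb)) ha h]; exact hb
  · intro h; exact ⟨a, h, rfl⟩

theorem lab_injOn {l : List ℕ} (hl : l.Nodup) {P : Finset ℕ} (hP : P ⊆ Finset.range l.length) :
    Set.InjOn (fun a => l.getD a 0) P := by
  intro a ha b hb h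
  exact getD_inj hl (Finset.mem_range.mp (hP ha)) (Finset.mem_range.mp (hP hb)) h

theorem lab_card {l : List ℕ} (hl : l.Nodup) {P : Finset ℕ} (hP : P ⊆ Finset.range l.length) :
    (lab l P).card = P.card := Finset.card_image_of_injOn (lab_injOn hl hP)

theorem lab_sub {l : List ℕ} {P : Finset ℕ} (hP : P ⊆ Finset.range l.length) :
    lab l P ⊆ l.toFinset := by
  intro x hx
  unfold lab at hx
  rw [Finset.mem_image] at hx
  obtain ⟨a, ha, rfl⟩ := hx
  have := Finset.mem_range.mp (hP ha)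
  rw [List.mem_toFinset, List.getD_eq_getElem _ _ this]
  exact List.getElem_mem this

theorem lab_inter {l : List ℕ} (hl : l.Nodup) {P Q : Finset ℕ}
    (hP : P ⊆ Finset.range l.length) (hQ : Q ⊆ Finset.range l.length) :
    lab l P ∩ lab l Q = lab l (P ∩ Q) := by
  ext x
  rw [Finset.mem_inter]
  constructor
  · rintro ⟨h1, h2⟩
    unfold lab at h1
    rw [Finset.mem_image] at h1
    obtain ⟨a, ha, rfl⟩ := h1
    have ha' := Finset.mem_range.mp (hP ha)
    rw [mem_lab hl hQ ha'] at h2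
    rw [mem_lab hl (fun y hy => hP (Finset.mem_inter.mp hy).1) ha', Finset.mem_inter]
    exact ⟨ha, h2⟩
  · intro h
    unfold lab at h
    rw [Finset.mem_image] at h
    obtain ⟨a, ha, rfl⟩ := h
    rw [Finset.mem_inter] at ha
    have ha' := Finset.mem_range.mp (hP ha.1)
    exact ⟨(mem_lab hl hP ha').mpr ha.1, (mem_lab hl hQ ha').mpr ha.2⟩

theorem lab_Ico (l : List ℕ) (a₀ a₁ : ℕ) (h : a₁ ≤ l.length) :
    lab l (Finset.Ico a₀ a₁) = ((l.drop a₀).take (a₁ - a₀)).toFinset := by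
  ext x
  unfold lab
  rw [Finset.mem_image, List.mem_toFinset, List.mem_iff_getElem]
  constructor
  · rintro ⟨a, ha, rfl⟩
    rw [Finset.mem_Ico] at ha
    refine ⟨a - a₀, ?_, ?_⟩
    · rw [List.length_take, List.length_drop]; omega
    · rw [List.getElem_take, List.getElem_drop, List.getD_eq_getElem _ _ (by omega)]
      congr 1; omega
  · rintro ⟨i, hi, rfl⟩
    rw [List.length_take, List.length_drop] at hi
    refine ⟨a₀ + i, ?_, ?_⟩
    · rw [Finset.mem_Ico]; omega
    · rw [List.getElem_take, List.getElem_drop, List.getD_eq_getElem _ _ (by omega)]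

theorem Pg_lab {K : Type*} [Field K] {l : List ℕ} (hl : l.Nodup) (r : ℕ) (c u : ℕ → K)
    {P : Finset ℕ} (hP : P ⊆ Finset.range l.length) (hr : P.card = r) :
    Pg l r c u (lab l P) = Wp l.length (fun a => c (l.getD a 0)) u P := by
  unfold Pg
  rw [if_pos (by rw [Finset.mem_powersetCard]; exact ⟨lab_sub hP, by rw [lab_card hl hP, hr]⟩)]
  unfold Wp
  congr 1
  · unfold lab
    rw [Finset.prod_image (lab_injOn hl hP)]
  · have : Net.prs l (lab l P) = PP l.length P := by
      ext ⟨a, b⟩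
      simp only [Net.prs, PP, Finset.mem_filter, Finset.mem_product, Finset.mem_range]
      constructor
      · rintro ⟨⟨h1, h2⟩, h3, h4, h5⟩
        rw [mem_lab hl hP (by omega)] at h4 h5
        exact ⟨⟨h4, h5⟩, h3, by omega⟩
      · rintro ⟨⟨h4, h5⟩, h3, h1⟩
        have := Finset.mem_range.mp (hP h4)
        have := Finset.mem_range.mp (hP h5)
        refine ⟨⟨by omega, by omega⟩, h3, ?_, ?_⟩
        · rw [mem_lab hl hP (by omega)]; exact h4
        · rw [mem_lab hl hP (by omega)]; exact h5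
    rw [this]

theorem Pg_ne {K : Type*} [Field K] {l : List ℕ} (r : ℕ) (c u : ℕ → K)
    (hc : ∀ i, c i ≠ 0) (hu : ∀ a b, a < b → b + 1 < l.length → ∑ h ∈ Finset.Ico a b, u h ≠ 0)
    {I : Finset ℕ} (hI : I ∈ l.toFinset.powersetCard r) : Pg l r c u I ≠ 0 := by
  unfold Pg
  rw [if_pos hI]
  refine mul_ne_zero (Finset.prod_ne_zero_iff.mpr fun i _ => hc i)
    (Finset.prod_ne_zero_iff.mpr fun p hp => ?_)
  simp only [Net.prs, Finset.mem_filter, Finset.mem_product, Finset.mem_range] at hp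
  exact hu _ _ hp.2.1 (by omega)

/-- membership of the basic quotient -/
theorem tri_mon {K : Type*} [Field K] {l : List ℕ} (hl : l.Nodup) (r : ℕ) (c u : ℕ → K)
    (hc : ∀ i, c i ≠ 0) (hu : ∀ a b, a < b → b + 1 < l.length → ∑ h ∈ Finset.Ico a b, u h ≠ 0)
    (M' : Finset (Finset ℕ)) (hM : M' ⊆ l.toFinset.powersetCard r) (P : Finset ℕ) (i j k : ℕ)
    (hP : P ⊆ Finset.range l.length) (hr : P.card + 2 = r)
    (hi : i ∉ P) (hj : j ∉ P) (hk : k ∉ P) (hn : l.length - 1 ∉ P) (hij : i ≠ j) (hik : i ≠ k)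
    (hin : i + 1 < l.length) (hjn : j + 1 < l.length) (hkn : k + 1 < l.length)
    (h1 : lab l (insert i (insert j P)) ∈ M') (h2 : lab l (insert i (insert k P)) ∈ M')
    (h3 : lab l (insert k (insert (l.length - 1) P)) ∈ M')
    (h4 : lab l (insert j (insert (l.length - 1) P)) ∈ M') :
    ds u i j / ds u i k ∈ Mon M' (Pg l r c u) := by
  have hp : ∀ I ∈ M', Pg l r c u I ≠ 0 := fun I hI => Pg_ne r c u hc hu (hM hI)
  have sub : ∀ x y, x < l.length → y < l.length →
      insert x (insert y P) ⊆ Finset.range l.length := by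
    intro x y hx hy z hz
    rw [Finset.mem_insert, Finset.mem_insert] at hz
    rw [Finset.mem_range]
    rcases hz with rfl | rfl | h
    · exact hx
    · exact hy
    · exact Finset.mem_range.mp (hP h)
  have crd : ∀ x y, x ≠ y → x ∉ P → y ∉ P → (insert x (insert y P)).card = r := by
    intro x y hxy hx hy
    rw [Finset.card_insert_of_notMem (by simp [hxy, hx]), Finset.card_insert_of_notMem hy, ← hr]
  have e := tri_eq l.length (fun a => c (l.getD a 0)) u (fun a => hc _) hu P i j k hi hj hk hn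
    hij hik hin hjn hkn
  rw [e, ← Pg_lab hl r c u (sub i j (by omega) (by omega)) (crd i j hij hi hj),
    ← Pg_lab hl r c u (sub i k (by omega) (by omega)) (crd i k hik hi hk),
    ← Pg_lab hl r c u (sub k _ (by omega) (by omega)) (crd k _ (by omega) hk hn),
    ← Pg_lab hl r c u (sub j _ (by omega) (by omega)) (crd j _ (by omega) hj hn)]
  exact mon_mul hp (mon_quot hp h1 h2) (mon_quot hp h3 h4)

end ABCT.H50
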